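import Pool.Agent.Lib.MP_524519_ag.DU5.LNK.Iface
import Pool.Agent.Lib.MP_524519_ag.DU5.SM.Sub

/-!
# DU5, chapter LNK, module SUK (helper7): the restriction to the plane `x_2 = lam x_1`
-/

set_option autoImplicit false

namespace Pool.Agent.DU5.LNK

open MvPowerSeries

namespace SUK

/-- the exponent `(i, j, l)` -/
noncomputable def t3 (i j l : ℕ) : Fin 3 →₀ ℕ :=
  Finsupp.single 0 i + Finsupp.single 1 j + Finsupp.single 2 l

theorem t3_0 (i j l : ℕ) : t3 i j l 0 = i := by
  simp [t3]

theorem t3_1 (i j l : ℕ) : t3 i j l 1 = j := by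
  simp [t3]

theorem t3_2 (i j l : ℕ) : t3 i j l 2 = l := by
  simp [t3]

theorem t3_eq (d : Fin 3 →₀ ℕ) : t3 (d 0) (d 1) (d 2) = d := by
  ext i
  fin_cases i
  · exact t3_0 _ _ _
  · exact t3_1 _ _ _
  · exact t3_2 _ _ _

variable {k F : Type} [Field k] [Field F] [Algebra k F]

/-- the substitution -/
noncomputable def sb (lam : F) : Fin 3 → PC.R2 F := ![(X 1 : PC.R2 F), X 0, C lam * X 0]

theorem sb_c (lam : F) (i : Fin 3) : constantCoeff (sb lam i) = 0 := by
  fin_cases i
  · simp [sb]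
  · simp [sb]
  · simp [sb]

theorem sb_hs (lam : F) : HasSubst (sb lam) := hasSubst_of_constantCoeff_zero (sb_c lam)

theorem rs_eq (lam : F) (h : O k 3) : rs lam h = MvPowerSeries.subst (sb lam) h := rfl

theorem prod_eq (lam : F) (d : Fin 3 →₀ ℕ) : (d.prod fun s e => sb lam s ^ e) =
    monomial (Finsupp.single 0 (d 1 + d 2) + Finsupp.single 1 (d 0)) (lam ^ d 2) := by
  rw [Finsupp.prod_fintype _ _ (fun i => pow_zero _), Fin.prod_univ_three]
  have e0 : sb lam 0 = X 1 := rfl
  have e1 : sb lam 1 = X 0 := rfl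
  have e2 : sb lam 2 = MvPowerSeries.C lam * X 0 := rfl
  rw [e0, e1, e2, mul_pow]
  have e3 : (X 1 : PC.R2 F) ^ d 0 * X 0 ^ d 1 * (C lam ^ d 2 * X 0 ^ d 2) =
      C (lam ^ d 2) * (X 0 ^ (d 1 + d 2) * X 1 ^ d 0) := by
    rw [map_pow, pow_add]; ring
  rw [e3, X_pow_eq, X_pow_eq, monomial_mul_monomial, one_mul]
  ext e
  rw [coeff_C_mul, coeff_monomial, coeff_monomial]
  split_ifs <;> simp

theorem coeff_prod (lam : F) (d : Fin 3 →₀ ℕ) (e : Fin 2 →₀ ℕ) :
    coeff e (d.prod fun s e => sb lam s ^ e) =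
      if d 1 + d 2 = e 0 ∧ d 0 = e 1 then lam ^ d 2 else 0 := by
  rw [prod_eq, coeff_monomial]
  have h : e = Finsupp.single 0 (d 1 + d 2) + Finsupp.single 1 (d 0) ↔
      d 1 + d 2 = e 0 ∧ d 0 = e 1 := by
    constructor
    · intro h
      constructor
      · rw [h]; simp
      · rw [h]; simp
    · rintro ⟨h1, h2⟩
      ext i
      fin_cases i
      · simp [h1]
      · simp [h2]
  simp only [h]

/-- the coefficients of the restriction -/
theorem coeff_rs (lam : F) (h : O k 3) (e : Fin 2 →₀ ℕ) : coeff e (rs lam h) =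
    ∑ i ∈ Finset.range (e 0 + 1),
      algebraMap k F (coeff (t3 (e 1) (e 0 - i) i) h) * lam ^ i := by
  rw [rs_eq, coeff_subst (sb_hs lam)]
  have hinj : Set.InjOn (fun i => t3 (e 1) (e 0 - i) i) (Finset.range (e 0 + 1) : Set ℕ) := by
    intro i _ j _ hij
    have := congrArg (fun d : Fin 3 →₀ ℕ => d 2) hij
    simpa [t3_2] using this
  rw [finsum_eq_sum_of_support_subset (s := (Finset.range (e 0 + 1)).image
    (fun i => t3 (e 1) (e 0 - i) i))]
  · rw [Finset.sum_image (fun i hi j hj => hinj hi hj)]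
    apply Finset.sum_congr rfl
    intro i hi
    rw [Finset.mem_range] at hi
    rw [coeff_prod, t3_0, t3_1, t3_2, if_pos ⟨by omega, rfl⟩, Algebra.smul_def]
  · intro d hd
    rw [Function.mem_support, coeff_prod] at hd
    have hd' : d 1 + d 2 = e 0 ∧ d 0 = e 1 := by
      by_contra hcon
      rw [if_neg hcon] at hd
      exact hd (smul_zero _)
    rw [Finset.coe_image]
    refine ⟨d 2, ?_, ?_⟩
    · rw [Finset.coe_range, Set.mem_Iio]; omega
    · show t3 (e 1) (e 0 - d 2) (d 2) = d
      rw [← hd'.1, ← hd'.2, Nat.add_sub_cancel]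
      exact t3_eq d

theorem pd_X (l j : Fin 2) : pderiv F l (X j : PC.R2 F) = if l = j then 1 else 0 := by
  have h := MvPowerSeries.pderiv_coe (R := F) (i := l) (f := (MvPolynomial.X j : MvPolynomial (Fin 2) F))
  rw [MvPolynomial.coe_X, MvPolynomial.pderiv_X] at h
  rw [h]
  split_ifs with h1
  · subst h1; simp
  · rw [Pi.single_eq_of_ne (Ne.symm h1)]; simp

theorem pd_CX (lam : F) (l j : Fin 2) :
    pderiv F l (C lam * X j : PC.R2 F) = C lam * (if l = j then 1 else 0) := by
  rw [Derivation.leibniz, pd_X]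
  have h : pderiv F l (C lam : PC.R2 F) = 0 := by
    have : (C lam : PC.R2 F) = algebraMap F (PC.R2 F) lam := rfl
    rw [this, Derivation.map_algebraMap]
  rw [h, smul_zero, add_zero, smul_eq_mul]

end SUK

open SUK in
theorem suk : SukStatement := by
  intro k F _ _ _ lam
  refine ⟨?_, ?_, ?_, ?_, ?_⟩
  · intro a b
    exact ⟨subst_add (sb_hs lam) a b, subst_mul (sb_hs lam) a b⟩
  · intro n η hn hη h
    have hb : HasSubst (![(PowerSeries.X : PowerSeries F) ^ n, η]) := by
      apply hasSubst_of_constantCoeff_zero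
      intro i
      fin_cases i
      · show PowerSeries.constantCoeff ((PowerSeries.X : PowerSeries F) ^ n) = 0
        rw [map_pow, PowerSeries.constantCoeff_X, zero_pow hn]
      · exact hη
    show MvPowerSeries.subst (arc lam n η) h =
      MvPowerSeries.subst _ (MvPowerSeries.subst (sb lam) h)
    rw [subst_comp_subst_apply (sb_hs lam) hb]
    congr 1
    funext i
    fin_cases i
    · show arc lam n η 0 = MvPowerSeries.subst _ (X 1)
      rw [subst_X hb]
      rfl
    · show arc lam n η 1 = MvPowerSeries.subst _ (X 0)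
      rw [subst_X hb]
      rfl
    · show arc lam n η 2 = MvPowerSeries.subst _ (MvPowerSeries.C lam * X 0)
      rw [subst_mul hb, subst_C, subst_X hb]
      rfl
  · intro h
    rw [rs_eq, SM.chain_mv (sb lam) (sb_c lam) h 1, Fin.sum_univ_three]
    have e0 : sb lam 0 = X 1 := rfl
    have e1 : sb lam 1 = X 0 := rfl
    have e2 : sb lam 2 = MvPowerSeries.C lam * X 0 := rfl
    rw [e0, e1, e2, pd_X, pd_X, pd_CX, if_pos rfl, if_neg (by decide)]
    rw [rs_eq]; ring
  · intro h
    rw [rs_eq, SM.chain_mv (sb lam) (sb_c lam) h 0, Fin.sum_univ_three]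
    have e0 : sb lam 0 = X 1 := rfl
    have e1 : sb lam 1 = X 0 := rfl
    have e2 : sb lam 2 = MvPowerSeries.C lam * X 0 := rfl
    rw [e0, e1, e2, pd_X, pd_X, pd_CX, if_neg (by decide), if_pos rfl]
    rw [rs_eq, rs_eq]; ring
  · intro d f hf
    refine ⟨fun e he => ?_, ?_⟩
    · rw [coeff_rs]
      apply Finset.sum_eq_zero
      intro i hi
      rw [Finset.mem_range] at hi
      rw [hf.low, map_zero, zero_mul]
      rw [t3_0, t3_1, t3_2]
      omega
    · rw [coeff_rs]
      have e0 : (Finsupp.single (1 : Fin 2) d) 0 = 0 := by simp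
      have e1 : (Finsupp.single (1 : Fin 2) d) 1 = d := by simp
      rw [e0, e1, zero_add, Finset.sum_range_one, pow_zero, mul_one]
      have e2 : t3 d (0 - 0) 0 = Finsupp.single 0 d := by
        unfold t3
        simp
      rw [e2]
      intro h0
      exact hf.top ((algebraMap k F).injective (by rw [h0, map_zero]))

end Pool.Agent.DU5.LNK
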